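import Pool.Agent.TH733.RG.Sel

/-!
# Common translates of independent random oracles: P-selective complete sets for `NP`

`xor2 A B` is the symmetric difference of the oracles `A` and `B`, the translate of `A` by `B`.

* For every sequence `B 0, B 1, ...` of oracles there is one oracle `A` such that, relative to every
  translate of `A` by a `B i`, `P = NP` and some P-selective set is many-one complete for `NP`.
* Let the `B i` be independent random oracles. Almost surely, for every set `I` of numbers there is
  one oracle `A` such that for all `i`, relative to the translate of `A` by `B i`: if `i` is in `I`,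
  then `P = NP` and some P-selective set is many-one complete for `NP`; if `i` is not in `I`, then
  `P ≠ NP` and no P-selective set (in `NP` or not) is hard for `NP` under Turing reductions, not
  even under strong nondeterministic ones.

So the equivalence of Q1 is true relative to all these translates, and the set of the `i` for which
both sides are true can be prescribed.

Proof. `A` codes the computations relative to its translates by the `B i`, `i ∈ I`, masked by
`B i`; on the strings of length at most `n` it depends on `I` only below `log n`; for a fixed `I` the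
translate by an independent random oracle is random; the oracles for which `NP` is contained in
`coNP` with polynomial advice form a null set for slowly growing gauges; a P-selective set can be
replaced by a sparse oracle (Ko's theorem, relative to the oracle), and a sparse oracle by advice of
polynomial length.
-/

set_option autoImplicit false

namespace Pool.Agent.Results.MP_5d94c0_lc.IndependentTranslates

open Pool.Agent.NPC Pool.Agent.H620R2.Gauge Pool.Agent.TH680.NPP
open Pool.Agent.W900.IE (SparseS)
open Pool.Agent.H622R2 (poly_of_polyTime)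
open Pool.Agent.TH733.RT (xor2 randomSeq slowG slow_p use_p)
open Pool.Agent.TH733.RG.Sel (join Selective Sparse exists_sparse isFP_left)
open MeasureTheory

/-- The set `S` is hard for `NP` under polynomial-time Turing reductions relative to `A`. -/
def TuringHard (A S : Oracle) : Prop := ∀ L, IsNP A L → IsP (join A S) L

/-- The set `S` is hard for `NP` under polynomial-time many-one reductions relative to `A`. -/
def ManyOneHard (A S : Oracle) : Prop :=
  ∀ L, IsNP A L → ∃ F : List Bool → List Bool, IsFP A F ∧ ∀ x, x ∈ L ↔ S (F x) = true

/-- The set `S` is complete for `NP` under Turing reductions relative to the oracle `A`. -/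
def TuringComplete (A S : Oracle) : Prop := IsNP A {x | S x = true} ∧ TuringHard A S

/-- The set `S` is complete for `NP` under many-one reductions relative to the oracle `A`. -/
def ManyOneComplete (A S : Oracle) : Prop := IsNP A {x | S x = true} ∧ ManyOneHard A S

/-- The set `S` is hard for `NP` under strong nondeterministic reductions relative to the oracle
`A`: all sets in `NP` are in `coNP` relative to `A` and `S`. -/
def StrongHard (A S : Oracle) : Prop := ∀ L, IsNP A L → IsNP (join A S) Lᶜ

/-- the empty oracle -/
def emp : Oracle := fun _ => false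

theorem sparseS_join {S : Oracle} (hS : Sparse S) (O : Oracle) :
    SparseS (fun q => (join O S q ^^ join O emp q)) := by
  obtain ⟨p, hS⟩ := hS
  obtain ⟨c, hc⟩ := Pool.Agent.W900.IE.poly_le p 0
  refine ⟨c, fun n => ?_⟩
  refine le_trans ?_ (((Nat.le_add_right _ _).trans (hc n)))
  refine le_trans ?_ (hS n)
  have hfin : {x : List Bool | S x = true ∧ x.length ≤ n}.Finite :=
    (List.finite_length_le Bool n).subset fun x hx => hx.2
  rw [← Set.ncard_coe_finset]
  refine Set.ncard_le_ncard_of_injOn (fun v => (List.ofFn v).tail) ?_ ?_ hfin
  · intro v hv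
    rw [Finset.mem_coe, Finset.mem_filter] at hv
    have h1 := hv.2
    have h2 : (List.ofFn v).length = n := List.length_ofFn
    rcases hx : List.ofFn v with _ | ⟨b, z⟩
    · rw [hx] at h1
      simp [join] at h1
    · rw [hx] at h1 h2
      cases b with
      | false => simp [join] at h1
      | true =>
        have h3 : (S z ^^ emp z) = true := h1
        refine ⟨by simpa [emp] using h3, ?_⟩
        rw [List.length_cons] at h2
        simp only [List.tail_cons]
        omega
  · intro v hv v' hv' h
    rw [Finset.mem_coe, Finset.mem_filter] at hv hv'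
    have key : ∀ v : Fin n → Bool, (join O S (List.ofFn v) ^^ join O emp (List.ofFn v)) = true →
        List.ofFn v = true :: (List.ofFn v).tail := by
      intro v h1
      rcases hx : List.ofFn v with _ | ⟨b, z⟩
      · rw [hx] at h1
        simp [join] at h1
      · rw [hx] at h1
        cases b with
        | false => simp [join] at h1
        | true => rfl
    have h1 := key v hv.2
    have h2 := key v' hv'.2
    simp only at h
    exact List.ofFn_injective (by rw [h1, h2, h])

theorem isFP_emp (A : Oracle) : IsFP A (fun q => [join A emp q]) := by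
  have h10 := IsFP.tt (A := A) (Q := fun q => [q.tail])
    (H := fun p => [decide (p.1.head? = some false) && p.2.head?.getD false])
    (Poly.cons (Poly.tail Poly.id) (NPC.Poly.const []))
    (Poly.cons (Poly.and (Poly.decide_eq (Poly.head? (Poly.fst Poly.id)) (NPC.Poly.const _))
      (Poly.head?_getD (Poly.snd Poly.id) false)) (NPC.Poly.const []))
  have h11 : (fun q => [join A emp q]) = fun q =>
      [decide (q.head? = some false) && ((List.map A [q.tail]).head?.getD false)] := by
    funext q
    rcases q with _ | ⟨b, z⟩
    · simp [join]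
    · cases b <;> simp [join, emp]
  rw [h11]
  exact h10

theorem isNP_subst {A D : Oracle} (hD : IsFP A (fun q => [D q])) {L : Set (List Bool)}
    (h : IsNP D L) : IsNP A L := by
  obtain ⟨V, p, hV, hL⟩ := h
  exact ⟨V, p, Pool.Agent.TH680.DT.isFP_subst hD hV, hL⟩

/-- no P-selective hard sets if `NP` is not contained in `coNP` with polynomial advice -/
theorem no_selective {A : Oracle} {L : Set (List Bool)} (h1 : IsNP A L)
    (h2 : ¬ WithAdvice (IsNP A) Lᶜ) {S : Oracle} (hS : Selective A S) : ¬ StrongHard A S := by
  intro hcon
  apply h2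
  obtain ⟨T, hT, h0⟩ := exists_sparse hS
  have h3 : WithAdvice (IsNP (join A T)) Lᶜ := (isNP_subst h0 (hcon L h1)).withAdvice
  obtain ⟨L', a, r, h4, h5, h6⟩ := (nppoly_iff (sparseS_join hT A) _).1 h3
  exact ⟨L', a, r, isNP_subst (isFP_emp A) h4, h5, h6⟩

theorem strong_of_turing {A S : Oracle} (h : TuringHard A S) : StrongHard A S :=
  fun L hL => isNP_of_p (isP_compl (h L hL))

/-- the set with one element, the empty string -/
def single : Oracle := fun x => decide (x = [])

theorem selective_single (A : Oracle) : Selective A single := by
  have h1 : Poly (fun z : List Bool => if (unpair z).1 = [] then (unpair z).1 else (unpair z).2) :=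
    Poly.ite (Poly.decide_eq (Poly.fst poly_unpair) (NPC.Poly.const [])) (Poly.fst poly_unpair)
      (Poly.snd poly_unpair)
  refine ⟨_, IsFP.of_poly h1, fun x y => ?_⟩
  beta_reduce
  rw [unpair_pairBits]
  by_cases hx : x = []
  · simp [single, hx]
  · simp [single, hx]

theorem isNP_single (A : Oracle) : IsNP A {x | single x = true} := by
  refine isNP_of_p ⟨_, IsFP.of_poly (Poly.cons (Poly.decide_eq Poly.id (NPC.Poly.const []))
    (NPC.Poly.const [])), fun x => ?_⟩
  simp [single]

/-- if all of `PSPACE` reduces to the oracle then every nontrivial set is many-one hard for `NP` -/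
theorem all_hard {A : Oracle} (h : ∀ L, IsPSPACE A L → Reduces L {x | A x = true})
    {S : Oracle} {y z : List Bool} (hy : S y = true) (hz : S z = false) : ManyOneHard A S := by
  intro L hL
  obtain ⟨q, hq, hqL⟩ := h L hL.isPSPACE
  have hq' := poly_of_polyTime hq
  have hH : Poly (fun p : List Bool × List Bool => if p.2 = [true] then y else z) :=
    Poly.ite (Poly.decide_eq (Poly.snd Poly.id) (NPC.Poly.const _)) (NPC.Poly.const _)
      (NPC.Poly.const _)
  refine ⟨_, IsFP.tt (Q := fun x => [q x]) (Poly.cons hq' (NPC.Poly.const [])) hH, fun x => ?_⟩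
  rw [hqL x, Set.mem_ofPred_eq]
  by_cases hx : A (q x) = true
  · simp [hx, hy]
  · simp [hx, hz]

/-- many-one hardness implies Turing hardness -/
theorem ManyOneHard.turing {A S : Oracle} (h : ManyOneHard A S) : TuringHard A S := by
  intro L hL
  obtain ⟨F, hF, hx⟩ := h L hL
  have h1 : IsFP (join A S) F := Pool.Agent.TH680.DT.isFP_subst (isFP_left A S) hF
  have h2 : IsFP (join A S) (fun q => [S q]) := by
    have h10 := IsFP.tt (A := join A S) (Q := fun q => [true :: q])
      (H := fun p => [p.2.head?.getD false])
      (Poly.cons (Poly.cons (NPC.Poly.const true) Poly.id) (NPC.Poly.const []))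
      (Poly.cons (Poly.head?_getD (Poly.snd Poly.id) false) (NPC.Poly.const []))
    exact h10
  refine ⟨fun x => [S (F x)], h2.comp h1, fun x => ?_⟩
  rw [hx x]
  simp

theorem easy_of {A : Oracle} (h : ∀ L, IsPSPACE A L → Reduces L {x | A x = true}) :
    (∃ S, Selective A S ∧ ManyOneComplete A S) ∧ ∀ L, IsNP A L → IsP A L :=
  ⟨⟨single, selective_single A, isNP_single A, all_hard h (y := []) (z := [true]) rfl rfl⟩,
    fun L hL => isP_of_reduces (h L hL.isPSPACE)⟩

theorem nullS : Null slowG {A : Oracle | WithAdvice (IsNP A) (hitLang A)ᶜ} :=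
  nullN (fun _ hε => (slow_p hε).frequently) _ fun _ hA => hA

theorem result :
    (∀ B : ℕ → Oracle, ∃ A : Oracle, ∀ i,
      (∃ S, Selective (xor2 A (B i)) S ∧ ManyOneComplete (xor2 A (B i)) S) ∧
      ∀ L, IsNP (xor2 A (B i)) L → IsP (xor2 A (B i)) L) ∧
    ∀ᵐ B ∂randomSeq, ∀ I : Set ℕ, ∃ A : Oracle, ∀ i,
      (i ∈ I ↔ ∀ L, IsNP (xor2 A (B i)) L → IsP (xor2 A (B i)) L) ∧
      (i ∈ I ↔ ∃ S, Selective (xor2 A (B i)) S ∧ TuringComplete (xor2 A (B i)) S) ∧
      (i ∈ I → ∃ S, Selective (xor2 A (B i)) S ∧ ManyOneComplete (xor2 A (B i)) S) ∧
      (i ∉ I → ∀ S, Selective (xor2 A (B i)) S → ¬ StrongHard (xor2 A (B i)) S) := by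
  obtain ⟨h1, h2⟩ := use_p nullS
  refine ⟨fun B => ?_, ?_⟩
  · obtain ⟨A, hA⟩ := h1 B
    exact ⟨A, fun i => easy_of (hA i)⟩
  · filter_upwards [h2] with B hB I
    obtain ⟨A, h3, h4⟩ := hB I
    refine ⟨A, fun i => ?_⟩
    by_cases hi : i ∈ I
    · obtain ⟨⟨S, s1, s2⟩, h7⟩ := easy_of (h3 i hi)
      exact ⟨iff_of_true hi h7, iff_of_true hi ⟨S, s1, s2.1, s2.2.turing⟩,
        fun _ => ⟨S, s1, s2⟩, fun h => absurd hi h⟩
    · have h5 : ∀ S, Selective (xor2 A (B i)) S → ¬ StrongHard (xor2 A (B i)) S :=
        fun S hS => no_selective (hitLang_np _) (h4 i hi) hS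
      refine ⟨iff_of_false hi fun h => ?_, iff_of_false hi fun ⟨S, h6, h7⟩ =>
        h5 S h6 (strong_of_turing h7.2), fun h => absurd h hi, fun _ => h5⟩
      exact h4 i hi (isNP_of_p (isP_compl (h _ (hitLang_np _)))).withAdvice

end Pool.Agent.Results.MP_5d94c0_lc.IndependentTranslates
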